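import Pool.Agent.Q22.SpDefs
import Pool.Agent.Q22.SpFinal

/-! The branching rule from `Sp_6` to `SL_2 × SL_2 × SL_2` for the highest weights `(a, b, 0)`. -/

namespace Pool.Agent.Results.MP_cdf40b_al.BranchingRule

open Q22.Sp

/-- For all `a, b ≥ 1` there is exactly one formal character `χ` given by the Weyl character
formula for the highest weight `a ω₁ + b ω₂` of `Sp_6`, and for every family `m` of multiplicities
the character of `⨁ m(r,s,t) π_{r,s,t}` is `χ` if and only if `m = μ_{a,b}`. -/
theorem result :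
    ∀ a b : ℕ, 1 ≤ a → 1 ≤ b →
      (∃! χ : CharRing, IsSpChar a b 0 χ) ∧
      ∀ χ : CharRing, IsSpChar a b 0 χ → ∀ m : (Fin 3 → ℕ) →₀ ℕ,
        χ = m.sum (fun x n => n • slChar x) ↔ ∀ x, m x = mu a b x :=
  fun a b _ _ => main a b

end Pool.Agent.Results.MP_cdf40b_al.BranchingRule
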